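import Mathlib
import Pool.Agent.H468Z.MO

/-!
For every MO function `f` the partial sums `S_f(x)` satisfy `limsup x |S_f(x)| ≥ 1/8 > 0`.
-/

set_option autoImplicit false

open Filter Topology

namespace Pool.Agent.Results.MP_2ae949_nt.OmegaOneOverX

/-- Let `f` be a multiplicative function whose series converges to `0` and all of whose local
series at primes converge to nonzero sums. Then `x |S_f(x)| ≥ 1/8` for arbitrarily large real
`x`, where `S_f(x)` is the sum of `f n` over `1 ≤ n ≤ x`. -/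
theorem result (f : ArithmeticFunction ℂ) (hf : f.IsMultiplicative)
    (_hsum : Tendsto (fun N : ℕ => ∑ n ∈ Finset.Icc 1 N, f n) atTop (𝓝 0))
    (hloc : ∀ p : ℕ, p.Prime → ∃ b : ℂ, b ≠ 0 ∧
      Tendsto (fun K : ℕ => ∑ k ∈ Finset.range K, f (p ^ k)) atTop (𝓝 b)) :
    ∃ᶠ x : ℝ in atTop, 1 / 8 ≤ x * ‖∑ n ∈ Finset.Icc 1 ⌊x⌋₊, f n‖ := by
  intro hcon
  have h1 := (tendsto_natCast_atTop_atTop (R := ℝ)).eventually hcon
  obtain ⟨N₀, hN₀⟩ := eventually_atTop.1 h1
  refine Pool.Agent.H468Z.MO.main f f.map_zero hf.1 hf.2 hloc N₀ (fun n hn => ?_)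
  have h2 := hN₀ n hn
  simp only [Nat.floor_natCast, not_le] at h2
  have h3 : Pool.Agent.H468Z.MO.s f n = ∑ i ∈ Finset.Icc 1 n, f i := by
    unfold Pool.Agent.H468Z.MO.s
    rw [Finset.range_eq_Ico, Finset.sum_eq_sum_Ico_succ_bot (by omega), f.map_zero, zero_add]
    rfl
  rw [h3]
  exact h2.le

end Pool.Agent.Results.MP_2ae949_nt.OmegaOneOverX
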